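import Pool.Agent.helper69.NV.Growth

/-!
Noisy voter model: cutoff window `O(1)` from every initial configuration.
-/

namespace Pool.Agent.Results.MP_2bac73_pr.CutoffWindowAllStarts

open Pool.Agent.helper69.NV

/-- For all `c₀`, `α ∈ (0,1)`, `θ ∈ (0,1)`, `q ≥ 2`, `ε ∈ (0,1)` there is a constant `C` such that
for every finite connected graph whose balls of radius `r ≥ 1` have at most
`c₀ exp (r ^ (1 - α))` vertices, the `q`-state noisy voter model with noise `θ` has a unique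
stationary distribution, and from every initial configuration `x₀` its mixing times satisfy
`|tmix x₀ ε - tmix x₀ (1 - ε)| ≤ C`. -/
theorem result (c₀ α θ ε : ℝ) (q : ℕ) (hα0 : 0 < α) (hα1 : α < 1) (hθ0 : 0 < θ) (hθ1 : θ < 1)
    (hq : 2 ≤ q) (hε0 : 0 < ε) (hε1 : ε < 1) :
    ∃ C : ℝ, ∀ (V : Type) [Fintype V] [DecidableEq V] (G : SimpleGraph V) [DecidableRel G.Adj],
      G.Connected → SubexpBalls G c₀ α →
        (∃! μ : (V → Fin q) → ℝ, IsStationary G q θ μ) ∧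
        ∀ μ : (V → Fin q) → ℝ, IsStationary G q θ μ → ∀ x₀ : V → Fin q,
          (∀ δ : ℝ, 0 < δ → ∃ t : ℝ, 0 ≤ t ∧ tv (law G q θ x₀ t) μ ≤ δ) ∧
          |tmix G q θ μ x₀ ε - tmix G q θ μ x₀ (1 - ε)| ≤ C := by
  obtain ⟨s₁, hs₁, hs₁'⟩ := exists_time
    (2 * q / θ * CC q θ (DD c₀) (TT c₀ α θ)) hθ0 hε0
  obtain ⟨s₂, hs₂, hs₂'⟩ := exists_time
    (2 * q / θ * CC q θ (DD c₀) (TT c₀ α θ)) hθ0 (sub_pos.2 hε1)
  refine ⟨s₁ + s₂, fun V _ _ G _ hc hG => ?_⟩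
  have H := cond_of_growth G (q := q) (by omega) hα0 hα1 hθ0 hθ1 hc hG
  refine ⟨exists_stationary H, fun μ hμ x₀ => ⟨fun δ hδ => set_nonempty H hμ x₀ hδ, ?_⟩⟩
  have h1 := tmix_le H hμ hs₁ x₀ hε0 hε1 hs₁'
  have h2 := tmix_le H hμ hs₂ x₀ (sub_pos.2 hε1) (by linarith) hs₂'
  rw [sub_sub_cancel] at h2
  rw [abs_le]
  constructor <;> linarith

end Pool.Agent.Results.MP_2bac73_pr.CutoffWindowAllStarts
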